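import Mathlib

open Set

namespace Pool.Agent.K4H72.Til

/-- a tile: a subset of the plane together with its colour -/
abbrev Tile (C : Type) := Set ℂ × C

/-- the translate of a tile -/
def shift {C : Type} (a : ℂ) (t : Tile C) : Tile C := ((fun z => a + z) '' t.1, t.2)

/-- the tiles of `a + T` which meet `K` -/
def patch {C : Type} (T : Set (Tile C)) (a : ℂ) (K : Set ℂ) : Set (Tile C) :=
  {t | t ∈ shift a '' T ∧ (t.1 ∩ K).Nonempty}

/-- polygons: nonempty compact sets with dense interior which are finite intersections of closed half-planes -/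
def IsPolygon (A : Set ℂ) : Prop :=
  A.Nonempty ∧ IsCompact A ∧ A ⊆ closure (interior A) ∧
    ∃ s : Finset ((ℂ →L[ℝ] ℝ) × ℝ), (∀ p ∈ s, p.1 ≠ 0) ∧ A = {z | ∀ p ∈ s, p.1 z ≤ p.2}

/-- polygonal tilings of the plane -/
structure IsTiling {C : Type} (T : Set (Tile C)) : Prop where
  countable : T.Countable
  polygon : ∀ t ∈ T, IsPolygon t.1
  cover : ∀ z : ℂ, ∃ t ∈ T, z ∈ t.1
  disj : ∀ s ∈ T, ∀ t ∈ T, s ≠ t → Disjoint (interior s.1) (interior t.1)

/-- `T'` is locally derivable from `T` -/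
def Derivable {C C' : Type} (T : Set (Tile C)) (T' : Set (Tile C')) : Prop :=
  ∃ R : ℝ, 0 < R ∧ ∀ x y : ℂ,
    patch T (-x) (Metric.ball 0 R) = patch T (-y) (Metric.ball 0 R) →
      patch T' (-x) {0} = patch T' (-y) {0}

/-- mutually locally derivable -/
def MLD {C C' : Type} (T : Set (Tile C)) (T' : Set (Tile C')) : Prop :=
  Derivable T T' ∧ Derivable T' T

/-- finite local complexity: for every radius there are only finitely many patches up to translation,
and these are finite -/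
def FLC {C : Type} (T : Set (Tile C)) : Prop :=
  ∀ R : ℝ, 0 < R → ∃ F : Set (Set (Tile C)), F.Finite ∧ (∀ P ∈ F, P.Finite) ∧
    ∀ x : ℂ, ∃ P ∈ F, ∃ a : ℂ, patch T (-x) (Metric.ball 0 R) = shift a '' P

/-- two polygons share an edge: a face which is neither a point nor a whole polygon is a face of both -/
def ShareEdge (A B : Set ℂ) : Prop :=
  ∃ e : Set ℂ, IsExposed ℝ A e ∧ IsExposed ℝ B e ∧ e.Nontrivial ∧ e ≠ A ∧ e ≠ B

/-- adjacency in the graph of the tiling -/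
def Adj {C : Type} {T : Set (Tile C)} (u v : T) : Prop := u ≠ v ∧ ShareEdge u.1.1 v.1.1

/-- the nearest-neighbour Laplacian of the tiling has a locally-supported eigenfunction -/
def HasLocEig {C : Type} (T : Set (Tile C)) : Prop :=
  ∃ (lam : ℝ) (ψ : T → ℂ), ψ ≠ 0 ∧ (Function.support ψ).Finite ∧
    ∀ v : T, ∑ᶠ u ∈ {u : T | Adj u v}, (ψ u - ψ v) = lam * ψ v

/-! auxiliary definitions of the proof -/

noncomputable def ζ : ℂ := ⟨1 / 2, Real.sqrt 3 / 2⟩

/-- the Eisenstein integers -/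
noncomputable def E (v : ℤ × ℤ) : ℂ := (v.1 : ℂ) + (v.2 : ℂ) * ζ

/-- the six units: ‖E e‖ = 1; in general ‖E v‖ ^ 2 = v.1 ^ 2 + v.1 * v.2 + v.2 ^ 2 -/
def six : Finset (ℤ × ℤ) := {(1, 0), (-1, 0), (0, 1), (0, -1), (1, -1), (-1, 1)}

/-- Voronoi cells -/
def cell (g : ℤ × ℤ → ℂ) (v : ℤ × ℤ) : Set ℂ := {z | ∀ w, ‖z - g v‖ ≤ ‖z - g w‖}

/-- `g` is a small deformation of the lattice of mesh `h` -/
def Def1 (h : ℝ) (g : ℤ × ℤ → ℂ) : Prop :=
  0 < h ∧ ∀ v w, ‖g v - g w - (h : ℂ) * E (v - w)‖ ≤ 1 / 20 * h * ‖E (v - w)‖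

end Pool.Agent.K4H72.Til
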