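import Pool.Agent.K4H72.Til.Asm

open Set

namespace Pool.Agent.K4H72.Til

theorem til_inj {C : Type} (T : Set (Tile C)) (h : ℝ) (g : ℤ × ℤ → ℂ) (hg : Def1 h g) (r : ℝ) :
    Function.Injective (tl T g r) := by
  intro v w hvw
  have h1 : cell g v = cell g w := congrArg Prod.fst hvw
  have h2 : g v ∈ cell g w := by rw [← h1]; exact self_mem g v
  have h3 := h2 v
  rw [sub_self, norm_zero] at h3
  have h4 : g v - g w = 0 := norm_le_zero_iff.1 h3
  have h5 := hg.2 v w
  have hh := hg.1
  rw [h4, zero_sub, norm_neg, norm_mul, Complex.norm_real, Real.norm_eq_abs, abs_of_pos hh] at h5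
  have h6 : ‖E (v - w)‖ = 0 := by
    have : 0 ≤ ‖E (v - w)‖ := norm_nonneg _
    have h7 : 0 ≤ h * ‖E (v - w)‖ := by positivity
    have h8 : h * ‖E (v - w)‖ ≤ 0 := by linarith
    have h9 : h * ‖E (v - w)‖ = 0 := le_antisymm h8 h7
    rcases mul_eq_zero.1 h9 with h10 | h10
    · exact absurd h10 hh.ne'
    · exact h10
  rcases E_cases (v - w) with h0 | ⟨_, h0⟩ | h0
  · exact sub_eq_zero.1 h0
  · rw [h6] at h0; norm_num at h0
  · rw [h6] at h0; norm_num at h0

theorem neg_six : ∀ e ∈ six, -e ∈ six := by decide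

theorem shareEdge_inter {A B : Set ℂ} (h : ShareEdge A B) : (A ∩ B).Nonempty := by
  obtain ⟨e, h1, h2, h3, _⟩ := h
  obtain ⟨x, hx⟩ := h3.nonempty
  exact ⟨x, h1.subset hx, h2.subset hx⟩

theorem tiling' {C : Type} (T : Set (Tile C)) (h : ℝ) (g : ℤ × ℤ → ℂ) (hg : Def1 h g) (r : ℝ) :
    IsTiling (Set.range (tl T g r)) where
  countable := Set.countable_range _
  polygon := by
    rintro t ⟨v, rfl⟩
    exact polygon h g hg v
  cover := by
    intro z
    obtain ⟨v, hv⟩ := cover h g hg z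
    exact ⟨_, ⟨v, rfl⟩, hv⟩
  disj := by
    rintro s ⟨v, rfl⟩ t ⟨w, rfl⟩ hst
    have hvw : v ≠ w := fun h => hst (by rw [h])
    exact interior_disj h g hg v w hvw

/-- the equivalence between the lattice and the tiles -/
noncomputable def idx {C : Type} (T : Set (Tile C)) (h : ℝ) (g : ℤ × ℤ → ℂ) (hg : Def1 h g) (r : ℝ) :
    ℤ × ℤ ≃ Set.range (tl T g r) := Equiv.ofInjective _ (til_inj T h g hg r)

theorem idx_val {C : Type} (T : Set (Tile C)) (h : ℝ) (g : ℤ × ℤ → ℂ) (hg : Def1 h g) (r : ℝ) (v : ℤ × ℤ) :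
    (idx T h g hg r v).1 = tl T g r v := rfl

theorem adj_iff {C : Type} (T : Set (Tile C)) (h : ℝ) (g : ℤ × ℤ → ℂ) (hg : Def1 h g) (r : ℝ) (u v : ℤ × ℤ) :
    Adj (idx T h g hg r u) (idx T h g hg r v) ↔ u - v ∈ six := by
  constructor
  · rintro ⟨h1, h2⟩
    have huv : u ≠ v := fun h0 => h1 (by rw [h0])
    rw [idx_val, idx_val] at h2
    have h3 := shareEdge_inter h2
    rw [Set.inter_comm] at h3
    exact touch h g hg v u huv.symm h3
  · intro he
    have huv : u ≠ v := by
      rintro rfl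
      rw [sub_self] at he
      revert he
      decide
    refine ⟨fun h0 => huv ((idx T h g hg r).injective h0), ?_⟩
    rw [idx_val, idx_val]
    have h1 := edge h g hg u (-(u - v)) (neg_six _ he)
    rw [show u + -(u - v) = v by abel] at h1
    exact h1

theorem nbrs {C : Type} (T : Set (Tile C)) (h : ℝ) (g : ℤ × ℤ → ℂ) (hg : Def1 h g) (r : ℝ) (v : ℤ × ℤ) :
    {u | Adj u (idx T h g hg r v)} = (fun e => idx T h g hg r (v + e)) '' (six : Set (ℤ × ℤ)) := by
  ext u
  obtain ⟨w, rfl⟩ := (idx T h g hg r).surjective u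
  simp only [Set.mem_setOf_eq, adj_iff, Set.mem_image, Finset.mem_coe]
  constructor
  · intro hw
    exact ⟨w - v, hw, by rw [add_sub_cancel]⟩
  · rintro ⟨e, he, h1⟩
    have := (idx T h g hg r).injective h1
    rw [← this, add_sub_cancel_left]
    exact he

theorem noEig {C : Type} (T : Set (Tile C)) (h : ℝ) (g : ℤ × ℤ → ℂ) (hg : Def1 h g) (r : ℝ) :
    ¬ HasLocEig (Set.range (tl T g r)) := by
  rintro ⟨lam, ψ, hψ, hfin, heq⟩
  apply hψ
  have hf : (fun v => ψ (idx T h g hg r v)) = 0 := by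
    apply lattice (fun v => ψ (idx T h g hg r v)) ?_ (lam : ℂ)
    · intro v
      have h1 := heq (idx T h g hg r v)
      rw [nbrs, finsum_mem_image] at h1
      · rw [finsum_mem_coe_finset] at h1
        exact h1
      · intro a _ b _ hab
        exact add_left_cancel ((idx T h g hg r).injective hab)
    · have : Function.support (fun v => ψ (idx T h g hg r v)) = (idx T h g hg r) ⁻¹' Function.support ψ := rfl
      rw [this]
      exact hfin.preimage (idx T h g hg r).injective.injOn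
  funext u
  obtain ⟨w, rfl⟩ := (idx T h g hg r).surjective u
  exact congrFun hf w

end Pool.Agent.K4H72.Til
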