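import Pool.Agent.K4H53.TilT1
import Pool.Agent.K4H41.Til2
import Pool.Agent.K4H29.TilT3
import Pool.Agent.K4H43.TilT4
import Pool.Agent.K4H96.TilNear
import Pool.Agent.K4H98.TilT6
import Pool.Agent.K4H98.TilT7
import Pool.Agent.K4H60.TilT8
import Pool.Agent.K4H74.TilT9
import Pool.Agent.K4H62.TilT10
import Pool.Agent.K4H37.Til11
import Pool.Agent.K4H51.TilT12
import Pool.Agent.K4H43.TilT13

open Set

namespace Pool.Agent.K4H72.Til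

theorem polygon (h : ℝ) (g : ℤ × ℤ → ℂ) (hg : Def1 h g) (v : ℤ × ℤ) : IsPolygon (cell g v) :=
  Pool.Agent.K4H74.TilT9.polygon_of radius cell_six h g hg v

theorem interior_disj (h : ℝ) (g : ℤ × ℤ → ℂ) (hg : Def1 h g) (v w : ℤ × ℤ) (hvw : v ≠ w) :
    Disjoint (interior (cell g v)) (interior (cell g w)) :=
  Pool.Agent.K4H74.TilT9.interior_disj h g hg v w hvw

theorem deform (P : Set ℂ) (D : ℝ) (hD : 0 < D) (hdense : ∀ x : ℂ, ∃ p ∈ P, ‖x - p‖ ≤ D / 4)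
    (hfin : {d : ℂ | ∃ p ∈ P, ∃ p' ∈ P, d = p - p' ∧ ‖d‖ ≤ 8 * D}.Finite) :
    ∃ (h : ℝ) (g : ℤ × ℤ → ℂ), Def1 h g ∧ ∀ R2 : ℝ, ∃ R : ℝ, ∀ x y : ℂ,
      (∀ p : ℂ, ‖p‖ < R → (x + p ∈ P ↔ y + p ∈ P)) →
        ∃ τ : ℤ × ℤ, ∀ v, ‖g v - x‖ ≤ R2 → g (v + τ) = g v + (y - x) :=
  deform_of approx choice near P D hD hdense hfin

end Pool.Agent.K4H72.Til
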