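import Pool.Agent.K4H72.Til.All

open Set

namespace Pool.Agent.K4H72.Til

/-- the cell of `v`, coloured with the patch of `T` around `g v` and its own shape -/
def tl {C : Type} (T : Set (Tile C)) (g : ℤ × ℤ → ℂ) (r : ℝ) (v : ℤ × ℤ) : Tile (Set (Tile C) × Set ℂ) :=
  (cell g v, (patch T (-(g v)) (Metric.ball 0 r), (fun z => -(g v) + z) '' cell g v))

theorem shift_shift {C : Type} (a b : ℂ) (t : Tile C) : shift a (shift b t) = shift (a + b) t := by
  unfold shift
  refine Prod.ext ?_ rfl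
  simp only [Set.image_image]
  congr 1
  funext z
  ring

theorem shift_zero {C : Type} (t : Tile C) : shift 0 t = t := by
  unfold shift
  refine Prod.ext ?_ rfl
  simp

theorem patch_sub {C : Type} (T : Set (Tile C)) (a : ℂ) {K K' : Set ℂ} (h : K ⊆ K') :
    patch T a K = {t | t ∈ patch T a K' ∧ (t.1 ∩ K).Nonempty} := by
  ext t
  constructor
  · rintro ⟨h1, h2⟩
    exact ⟨⟨h1, h2.mono (Set.inter_subset_inter_right _ h)⟩, h2⟩
  · rintro ⟨⟨h1, _⟩, h2⟩
    exact ⟨h1, h2⟩

theorem patch_add {C : Type} (T : Set (Tile C)) (a s : ℂ) (K : Set ℂ) :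
    patch T (s + a) K = shift s '' patch T a ((fun z => s + z) ⁻¹' K) := by
  ext t
  constructor
  · rintro ⟨⟨t0, ht0, rfl⟩, h2⟩
    refine ⟨shift a t0, ⟨⟨t0, ht0, rfl⟩, ?_⟩, shift_shift _ _ _⟩
    rw [← shift_shift] at h2
    obtain ⟨z, ⟨y, hy, rfl⟩, hz⟩ := h2
    exact ⟨y, hy, hz⟩
  · rintro ⟨t1, ⟨⟨t0, ht0, rfl⟩, ⟨y, hy, hyK⟩⟩, rfl⟩
    refine ⟨⟨t0, ht0, (shift_shift _ _ _).symm⟩, ⟨s + y, ⟨y, hy, rfl⟩, hyK⟩⟩

theorem patch_eq_of {C : Type} (T : Set (Tile C)) {x y : ℂ} {ρ r : ℝ}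
    (h : patch T (-x) (Metric.ball 0 ρ) = patch T (-y) (Metric.ball 0 ρ)) (s : ℂ) (hs : r + ‖s‖ ≤ ρ) :
    patch T (s + -x) (Metric.ball 0 r) = patch T (s + -y) (Metric.ball 0 r) := by
  have hK : (fun z => s + z) ⁻¹' Metric.ball (0 : ℂ) r ⊆ Metric.ball 0 ρ := by
    intro z hz
    simp only [Set.mem_preimage, mem_ball_zero_iff] at hz ⊢
    have : ‖z‖ ≤ ‖s + z‖ + ‖s‖ := by
      have h1 : z = (s + z) - s := by ring
      calc ‖z‖ = ‖(s + z) - s‖ := by rw [← h1]
        _ ≤ _ := norm_sub_le _ _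
    linarith
  rw [patch_add, patch_add, patch_sub T (-x) hK, patch_sub T (-y) hK, h]

theorem norm_step (h : ℝ) (g : ℤ × ℤ → ℂ) (hg : Def1 h g) (v e : ℤ × ℤ) (he : e ∈ six) :
    ‖g (v + e) - g v‖ ≤ 2 * h := by
  have hh := hg.1
  have h1 := hg.2 (v + e) v
  have hE : ‖E e‖ = 1 := by
    rcases E_cases e with h0 | ⟨_, h0⟩ | h0
    · exfalso
      subst h0
      revert he
      decide
    · exact h0
    · exfalso
      have : ‖E e‖ ^ 2 = 1 := by
        rw [norm_E_sq]
        simp only [six, Finset.mem_insert, Finset.mem_singleton] at he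
        rcases he with rfl | rfl | rfl | rfl | rfl | rfl <;> norm_num
      linarith
  have h2 : v + e - v = e := by abel
  rw [h2, hE] at h1
  have h3 : ‖(h : ℂ) * E e‖ = h := by
    rw [norm_mul, hE, Complex.norm_real, Real.norm_eq_abs, abs_of_pos hh]; ring
  have h4 : g (v + e) - g v = (g (v + e) - g v - (h : ℂ) * E e) + (h : ℂ) * E e := by ring
  rw [h4]
  refine (norm_add_le _ _).trans ?_
  rw [h3]
  linarith

theorem cell_translate (h : ℝ) (g : ℤ × ℤ → ℂ) (hg : Def1 h g) (v w : ℤ × ℤ) (s : ℂ)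
    (h0 : g w = g v + s) (hs : ∀ e ∈ six, g (w + e) = g (v + e) + s) :
    cell g w = (fun z => s + z) '' cell g v := by
  rw [cell_six h g hg w, cell_six h g hg v]
  ext z
  constructor
  · intro hz
    refine ⟨z - s, ?_, by ring⟩
    intro e he
    have := hz e he
    rw [h0, hs e he] at this
    rw [show z - s - g v = z - (g v + s) by ring, show z - s - g (v + e) = z - (g (v + e) + s) by ring]
    exact this
  · rintro ⟨y, hy, rfl⟩ e he
    have := hy e he
    rw [h0, hs e he]
    show ‖s + y - (g v + s)‖ ≤ ‖s + y - (g (v + e) + s)‖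
    rw [show s + y - (g v + s) = y - g v by ring, show s + y - (g (v + e) + s) = y - g (v + e) by ring]
    exact this

theorem der1 {C : Type} (T : Set (Tile C)) (h : ℝ) (g : ℤ × ℤ → ℂ) (hg : Def1 h g) (r : ℝ) (hr : 0 < r)
    (hloc : ∃ ρ : ℝ, ∀ x y : ℂ, patch T (-x) (Metric.ball 0 ρ) = patch T (-y) (Metric.ball 0 ρ) →
      ∃ τ : ℤ × ℤ, ∀ v, ‖g v - x‖ ≤ 3 * h → g (v + τ) = g v + (y - x)) :
    Derivable T (Set.range (tl T g r)) := by
  have hh := hg.1
  obtain ⟨ρ, hρ⟩ := hloc
  refine ⟨max ρ (r + 3 * h), lt_max_of_lt_right (by positivity), ?_⟩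
  have key : ∀ x y : ℂ, patch T (-x) (Metric.ball 0 (max ρ (r + 3 * h))) =
      patch T (-y) (Metric.ball 0 (max ρ (r + 3 * h))) →
      patch (Set.range (tl T g r)) (-x) {0} ⊆ patch (Set.range (tl T g r)) (-y) {0} := by
    intro x y hxy
    have hxy' : patch T (-x) (Metric.ball 0 ρ) = patch T (-y) (Metric.ball 0 ρ) := by
      have := patch_eq_of T (r := ρ) hxy 0 (by simp)
      simpa using this
    obtain ⟨τ, hτ⟩ := hρ x y hxy'
    rintro t ⟨⟨t0, ⟨v, rfl⟩, rfl⟩, hne⟩
    obtain ⟨z, ⟨z0, hz0, hz0'⟩, hz⟩ := hne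
    have hz1 : z = 0 := hz
    have hxz : z0 = x := by
      have h1 : -x + z0 = z := hz0'
      rw [hz1] at h1
      have h2 : z0 = x + (-x + z0) := by ring
      rw [h2, h1, add_zero]
    have hxv : x ∈ cell g v := by rw [← hxz]; exact hz0
    have hx7 : ‖x - g v‖ ≤ 7 / 10 * h := radius h g hg v x (fun e _ => hxv (v + e))
    have hgv : ‖g v - x‖ ≤ 7 / 10 * h := by rw [norm_sub_rev]; exact hx7
    have e0 : g (v + τ) = g v + (y - x) := hτ v (by linarith)
    have e1 : ∀ e ∈ six, g (v + τ + e) = g (v + e) + (y - x) := by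
      intro e he
      rw [show v + τ + e = v + e + τ by abel]
      apply hτ
      have h1 := norm_step h g hg v e he
      have h2 : g (v + e) - x = (g (v + e) - g v) + (g v - x) := by ring
      rw [h2]
      refine (norm_add_le _ _).trans ?_
      linarith
    have hcell := cell_translate h g hg v (v + τ) (y - x) e0 e1
    have hcol : patch T (-(g (v + τ))) (Metric.ball 0 r) = patch T (-(g v)) (Metric.ball 0 r) := by
      have := patch_eq_of T (r := r) hxy (x - g v) (by
        refine le_trans ?_ (le_max_right _ _)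
        linarith)
      rw [show x - g v + -x = -(g v) by ring, show x - g v + -y = -(g (v + τ)) by rw [e0]; ring] at this
      exact this.symm
    have hmain : shift (-x) (tl T g r v) = shift (-y) (tl T g r (v + τ)) := by
      unfold shift tl
      refine Prod.ext ?_ (Prod.ext hcol.symm ?_)
      · show (fun z => -x + z) '' cell g v = (fun z => -y + z) '' cell g (v + τ)
        rw [hcell, Set.image_image]
        congr 1
        funext z
        ring
      · show (fun z => -(g v) + z) '' cell g v = (fun z => -(g (v + τ)) + z) '' cell g (v + τ)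
        rw [hcell, Set.image_image, e0]
        congr 1
        funext z
        ring
    rw [hmain]
    refine ⟨⟨_, ⟨v + τ, rfl⟩, rfl⟩, ?_⟩
    rw [← hmain]
    exact ⟨z, ⟨z0, hz0, hz0'⟩, hz⟩
  intro x y hxy
  exact Set.Subset.antisymm (key x y hxy) (key y x hxy.symm)

theorem trans_eq (A : Set ℂ) (hA : A.Nonempty) (hb : Bornology.IsBounded A) (a b : ℂ)
    (h : (fun z => a + z) '' A = (fun z => b + z) '' A) : a = b := by
  obtain ⟨x0, hx0⟩ := hA
  have hstep : ∀ x ∈ A, (a - b) + x ∈ A := by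
    intro x hx
    have : a + x ∈ (fun z => b + z) '' A := by rw [← h]; exact ⟨x, hx, rfl⟩
    obtain ⟨y, hy, hy'⟩ := this
    have : (a - b) + x = y := by
      have h1 : b + y = a + x := hy'
      linear_combination -h1
    rw [this]; exact hy
  have hn : ∀ n : ℕ, (n : ℂ) * (a - b) + x0 ∈ A := by
    intro n
    induction n with
    | zero => simpa using hx0
    | succ n ih =>
      have := hstep _ ih
      rw [show ((n + 1 : ℕ) : ℂ) * (a - b) + x0 = (a - b) + ((n : ℂ) * (a - b) + x0) by push_cast; ring]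
      exact this
  obtain ⟨B, hB⟩ := hb.exists_norm_le
  by_contra hab
  have hpos : 0 < ‖a - b‖ := norm_pos_iff.2 (sub_ne_zero.2 hab)
  obtain ⟨n, hn'⟩ := exists_nat_gt ((B + ‖x0‖) / ‖a - b‖)
  have h1 := hB _ (hn n)
  have h2 : ‖(n : ℂ) * (a - b)‖ ≤ ‖(n : ℂ) * (a - b) + x0‖ + ‖x0‖ := by
    have h3 : (n : ℂ) * (a - b) = ((n : ℂ) * (a - b) + x0) - x0 := by ring
    calc ‖(n : ℂ) * (a - b)‖ = ‖((n : ℂ) * (a - b) + x0) - x0‖ := by rw [← h3]
      _ ≤ _ := norm_sub_le _ _
  rw [norm_mul, Complex.norm_natCast] at h2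
  rw [div_lt_iff₀ hpos] at hn'
  linarith

theorem der2 {C : Type} (T : Set (Tile C)) (h : ℝ) (g : ℤ × ℤ → ℂ) (hg : Def1 h g) (r : ℝ) (hr : h ≤ r) :
    Derivable (Set.range (tl T g r)) T := by
  have hh := hg.1
  refine ⟨1, one_pos, ?_⟩
  have key : ∀ x y : ℂ, patch (Set.range (tl T g r)) (-x) (Metric.ball 0 1) =
      patch (Set.range (tl T g r)) (-y) (Metric.ball 0 1) → patch T (-x) {0} ⊆ patch T (-y) {0} := by
    intro x y hxy
    rintro t ⟨⟨t0, ht0, rfl⟩, hne⟩
    obtain ⟨z, ⟨z0, hz0, hz0'⟩, hz⟩ := hne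
    have hz1 : z = 0 := hz
    have hxz : z0 = x := by
      have h1 : -x + z0 = z := hz0'
      rw [hz1] at h1
      have h2 : z0 = x + (-x + z0) := by ring
      rw [h2, h1, add_zero]
    have hxt : x ∈ t0.1 := by rw [← hxz]; exact hz0
    obtain ⟨v, hv⟩ := cover h g hg x
    have hx7 : ‖x - g v‖ ≤ 7 / 10 * h := radius h g hg v x (fun e _ => hv (v + e))
    have hmem : shift (-x) (tl T g r v) ∈ patch (Set.range (tl T g r)) (-x) (Metric.ball 0 1) := by
      refine ⟨⟨_, ⟨v, rfl⟩, rfl⟩, ⟨0, ⟨x, hv, by simp⟩, by simp⟩⟩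
    rw [hxy] at hmem
    obtain ⟨⟨t1, ⟨w, rfl⟩, hw⟩, _⟩ := hmem
    have c1 : (fun z => -y + z) '' cell g w = (fun z => -x + z) '' cell g v := congrArg Prod.fst hw
    have c2 := congrArg Prod.snd hw
    have c3 : patch T (-(g w)) (Metric.ball 0 r) = patch T (-(g v)) (Metric.ball 0 r) := congrArg Prod.fst c2
    have c4 : (fun z => -(g w) + z) '' cell g w = (fun z => -(g v) + z) '' cell g v := congrArg Prod.snd c2
    have d1 : cell g w = (fun z => (y - x) + z) '' cell g v := by
      have := congrArg (fun A => (fun z => y + z) '' A) c1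
      simp only [Set.image_image] at this
      rw [show (fun z : ℂ => y + (-y + z)) = id by funext z; simp, Set.image_id] at this
      rw [this]
      congr 1
      funext z
      ring
    have d2 : cell g w = (fun z => (g w - g v) + z) '' cell g v := by
      have := congrArg (fun A => (fun z => g w + z) '' A) c4
      simp only [Set.image_image] at this
      rw [show (fun z : ℂ => g w + (-(g w) + z)) = id by funext z; simp, Set.image_id] at this
      rw [this]
      congr 1
      funext z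
      ring
    have d3 : y - x = g w - g v :=
      trans_eq (cell g v) ⟨_, self_mem g v⟩ (polygon h g hg v).2.1.isBounded _ _ (d1.symm.trans d2)
    have hm2 : shift (-(g v)) t0 ∈ patch T (-(g v)) (Metric.ball 0 r) := by
      refine ⟨⟨t0, ht0, rfl⟩, ⟨-(g v) + x, ⟨x, hxt, rfl⟩, ?_⟩⟩
      rw [mem_ball_zero_iff, show -(g v) + x = x - g v by ring]
      linarith
    rw [← c3] at hm2
    obtain ⟨⟨t1, ht1, ht1'⟩, _⟩ := hm2
    have hfin : shift (-x) t0 = shift (-y) t1 := by
      have h1 : shift (g v + -x) (shift (-(g v)) t0) = shift (g v + -x) (shift (-(g w)) t1) := by rw [ht1']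
      rw [shift_shift, shift_shift] at h1
      rw [show g v + -x + -(g v) = -x by ring, show g v + -x + -(g w) = -y by linear_combination d3] at h1
      exact h1
    rw [hfin]
    refine ⟨⟨t1, ht1, rfl⟩, ?_⟩
    rw [← hfin]
    exact ⟨z, ⟨z0, hz0, hz0'⟩, hz⟩
  intro x y hxy
  exact Set.Subset.antisymm (key x y hxy) (key y x hxy.symm)

end Pool.Agent.K4H72.Til
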