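import Pool.Agent.K4H57.TLG1
import Pool.Agent.K4H41.TLG2
import Pool.Agent.K4H57.TLG3
import Pool.Agent.K4H71.TLG4
import Pool.Agent.K4H42.TLG5
import Pool.Agent.K4H96.TLG7
import Pool.Agent.K4H1.TLG8
import Pool.Agent.K4H71.TLG9
import Pool.Agent.K4H14.TLG10
import Pool.Agent.K4H12.TLM0
import Pool.Agent.K4H13.TLM7
import Pool.Agent.K4H87.TLM2
import Pool.Agent.K4H57.TLM3
import Pool.Agent.K4H72.TLM4
import Pool.Agent.K4H72.TLM5
import Pool.Agent.K4H9.TLM6
import Pool.Agent.K4H3.TLN1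

open Set

namespace Pool.Agent.K4H59.TL

open Pool.Agent.K4H72.Til (IsPolygon ShareEdge IsTiling Tile Derivable MLD Adj HasLocEig)

theorem exists_dec {K : Set ℂ} (hK : IsPolygon K) : ∃ (D : Set (Set ℂ)) (ρ : Set ℂ → ℕ), GoodDec K D ρ :=
  exists_dec_of (fun hK => centers_of (fun hK hO => rep_exists hK hO) hK)
    (@fun _ _ _ _ hR hf _ hx h0 hne => pc_cover hR hf hx h0 hne)
    (fun hR hK hf hA j => pc_polygon hR hK hf hA j)
    (fun hR hA hA' hne => pc_disj hR hA hA' hne)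
    (fun hR => pc_sub hR) (fun hR hj => pc_inner hR hj)
    (fun hR hf hA j => pc_share_next hR hf hA j)
    (fun hR hA hA' hs => pc_share_rank hR hA hA' hs)
    (fun hf R1 R2 h12 hne hB1 hB2 hA hA' => pc_no_share hf R1 R2 h12 hne hB1 hB2 hA hA') hK

theorem every {C : Type} (T : Set (Tile C)) (hT : IsTiling T) :
    ∃ (C' : Type) (T' : Set (Tile C')), IsTiling T' ∧ MLD T T' ∧
      (∀ v : T', {u : T' | Adj u v}.Finite) ∧ ¬ HasLocEig T' := by
  classical
  obtain ⟨rep, t, h1, h2⟩ := exists_rep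
  let D₀ : Set ℂ → Set (Set ℂ) := fun K => if hK : IsPolygon K then (exists_dec hK).choose else ∅
  let ρ₀ : Set ℂ → Set ℂ → ℕ := fun K => if hK : IsPolygon K then (exists_dec hK).choose_spec.choose else fun _ => 0
  have hD : ∀ K, IsPolygon K → GoodDec K (D₀ K) (ρ₀ K) := by
    intro K hK
    have e1 : D₀ K = (exists_dec hK).choose := dif_pos hK
    have e2 : ρ₀ K = (exists_dec hK).choose_spec.choose := dif_pos hK
    rw [e1, e2]
    exact (exists_dec hK).choose_spec.choose_spec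
  have hTil : IsTiling (newT T rep t D₀) := newT_tiling_of hT h1 hD
  refine ⟨_, newT T rep t D₀, hTil,
    ⟨newT_der_of (fun t hK => sh_polygon t hK) (@fun _ hK hc _ _ h => sh_inj hK hc h) hT h1 h2 hD,
      newT_der'_of (fun t hK => sh_polygon t hK) (@fun _ hK hc _ _ h => sh_inj hK hc h) hT h1 h2 hD⟩,
    fun v => nbr_finite hTil v,
    M6.newT_noLSE_of (fun t hK => sh_polygon t hK) sh_interior (fun t h => sh_share t h) sh_sh
      (fun hA hB => share_iff hA hB) hT h1 hD⟩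

end Pool.Agent.K4H59.TL
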