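import Pool.Agent.K4H72.Til.Asm2

open Set

namespace Pool.Agent.K4H72.Til

theorem locfin_idx (h : ℝ) (g : ℤ × ℤ → ℂ) (hg : Def1 h g) (R : ℝ) :
    {v : ℤ × ℤ | (cell g v ∩ Metric.ball (0 : ℂ) R).Nonempty}.Finite := by
  have hh := hg.1
  apply (E_finite ((R + 7 / 10 * h + ‖g 0‖) / (19 / 20 * h))).subset
  rintro v ⟨z, hz, hzR⟩
  rw [mem_ball_zero_iff] at hzR
  have h1 : ‖z - g v‖ ≤ 7 / 10 * h := radius h g hg v z (fun e _ => hz (v + e))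
  have h2 := hg.2 v 0
  rw [sub_zero] at h2
  have h3 : ‖(h : ℂ) * E v‖ = h * ‖E v‖ := by
    rw [norm_mul, Complex.norm_real, Real.norm_eq_abs, abs_of_pos hh]
  have h4 : (h : ℂ) * E v = (z - g 0) - (z - g v) - (g v - g 0 - (h : ℂ) * E v) := by ring
  have h5 : h * ‖E v‖ ≤ ‖z‖ + ‖g 0‖ + ‖z - g v‖ + 1 / 20 * h * ‖E v‖ := by
    rw [← h3, h4]
    refine (norm_sub_le _ _).trans ?_
    refine add_le_add ?_ h2
    refine (norm_sub_le _ _).trans ?_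
    exact add_le_add (norm_sub_le _ _) le_rfl
  show ‖E v‖ ≤ (R + 7 / 10 * h + ‖g 0‖) / (19 / 20 * h)
  rw [le_div_iff₀ (by positivity)]
  nlinarith

theorem locfin {C : Type} (T : Set (Tile C)) (h : ℝ) (g : ℤ × ℤ → ℂ) (hg : Def1 h g) (r R : ℝ) :
    {t | t ∈ Set.range (tl T g r) ∧ (t.1 ∩ Metric.ball (0 : ℂ) R).Nonempty}.Finite := by
  apply ((locfin_idx h g hg R).image (tl T g r)).subset
  rintro t ⟨⟨v, rfl⟩, hv⟩
  exact ⟨v, hv, rfl⟩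

end Pool.Agent.K4H72.Til
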